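import Pool.Agent.LibEA58.Final

/-!
# Projective dimensions in singular blocks of category `O`: a counterexample for `sp(6)`

For `g = sp(6, ℂ)`, `λ = (-2, -1, -1)`, that is `λ + ρ = (1, 1, 0)`, the dot-stabiliser `W_λ` is
generated by two of the three simple reflections, so it is a maximal Coxeter subgroup.  For the
longest coset representative `x = s₁ s₂ s₁ s₀ s₂` (`s₀ = s_{ε₁ - ε₂}`, `s₁ = s_{ε₂ - ε₃}`,
`s₂ = s_{2 ε₃}`) we show `a(w₀ x) + a(w₀ w₀^λ) ≤ 4` but `pd_{O_λ} L(x · λ) ≥ 5`.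
-/

namespace Pool.Agent.Results.MP_ea5068_al.SingularBlockPd

open EA58

/-- The formula `pd_{O_λ} L(x · λ) = a(w₀ x) + a(w₀ w₀^λ)` fails for `g = sp(6, ℂ)`,
`λ = (-2, -1, -1)` and `x = s₁ s₂ s₁ s₀ s₂`. -/
theorem result :
    DomInt ![-2, -1, -1] ∧ MaxStab ![-2, -1, -1] ∧
    LongestRep ![-2, -1, -1] (W.s 1 * W.s 2 * W.s 1 * W.s 0 * W.s 2) ∧
    ∃ w₀ u₀ : W, IsLongest w₀ ∧ IsLongestStab ![-2, -1, -1] u₀ ∧
    (∃ (ℋ : HeckeAlg) (C : W → ℋ.H), ℋ.IsKL C) ∧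
    (∀ (ℋ : HeckeAlg) (C : W → ℋ.H), ℋ.IsKL C →
      ℋ.aFun C (w₀ * (W.s 1 * W.s 2 * W.s 1 * W.s 0 * W.s 2)) +
        ℋ.aFun C (w₀ * u₀) ≤ 4) ∧
    (∃ (L : Type) (_ : AddCommGroup L) (_ : Module ℂ L) (_ : LieRingModule G L)
      (_ : LieModule ℂ G L),
      IsSimpleHW L (dot (W.s 1 * W.s 2 * W.s 1 * W.s 0 * W.s 2) ![-2, -1, -1])) ∧
    ∀ (L : Type) [AddCommGroup L] [Module ℂ L] [LieRingModule G L] [LieModule ℂ G L],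
      IsSimpleHW L (dot (W.s 1 * W.s 2 * W.s 1 * W.s 0 * W.s 2) ![-2, -1, -1]) →
        ((5 : ℕ) : ℕ∞) ≤ pd ![-2, -1, -1] L :=
  counterexample

end Pool.Agent.Results.MP_ea5068_al.SingularBlockPd
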